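import Pool.Agent.V11179.ApnClass

/-!
APN functions and relative difference set images: there is an APN map `f` on the field with 32
elements such that no map which is EA-equivalent or CCZ-equivalent to `f` has an image set that is
a nontrivial relative difference set.  This answers both questions in the negative.

(The map is the inversion map of the field with 32 elements, written in terms of a basis.)
-/

namespace Pool.Agent.Results.MP_abc6c1_co.NotEveryAPN

open Pool.Agent.V11179.ApnSearch

/-- almost perfect nonlinear -/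
def IsAPN {F : Type*} [AddCommGroup F] (f : F → F) : Prop :=
  ∀ a : F, a ≠ 0 → ∀ b : F, {x : F | f (x + a) + f x = b}.ncard ≤ 2

/-- `R` is a relative difference set in the group `G`, relative to the subgroup `N`, with
parameter `lam` -/
def IsRDS {G : Type*} [AddCommGroup G] (R : Set G) (N : AddSubgroup G) (lam : ℕ) : Prop :=
  (∀ g : G, g ∉ N → {p : G × G | p.1 ∈ R ∧ p.2 ∈ R ∧ p.1 ≠ p.2 ∧ p.1 - p.2 = g}.ncard = lam) ∧
  (∀ g : G, g ∈ N → g ≠ 0 → ∀ r ∈ R, ∀ r' ∈ R, r - r' ≠ g)

/-- `g` gives rise to a relative difference set: its image set is a nontrivial relative difference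
set relative to some subgroup -/
def GivesRDS {F : Type*} [AddCommGroup F] (g : F → F) : Prop :=
  ∃ (N : AddSubgroup F) (lam : ℕ), IsRDS (Set.range g) N lam ∧
    2 ≤ (Set.range g).ncard ∧ (Set.range g).ncard + 2 ≤ Nat.card F

/-- EA-equivalence (affine means affine over the field with two elements) -/
def EAEquiv {F : Type*} [AddCommGroup F] [Module (ZMod 2) F] (f g : F → F) : Prop :=
  ∃ (A B : F ≃ᵃ[ZMod 2] F) (C : F →ᵃ[ZMod 2] F), ∀ x, g x = A (f (B x)) + C x

/-- CCZ-equivalence -/
def CCZEquiv {F : Type*} [AddCommGroup F] [Module (ZMod 2) F] (f g : F → F) : Prop :=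
  ∃ e : (F × F) ≃ᵃ[ZMod 2] (F × F), e '' {p | p.2 = f p.1} = {p | p.2 = g p.1}

theorem exists_code (F : Type*) [AddCommGroup F] [Module (ZMod 2) F] [Finite F]
    (hF : Module.finrank (ZMod 2) F = 5) :
    ∃ c : F ≃ Fin 32, ∀ x y, (c (x + y)).val = (c x).val ^^^ (c y).val := by
  have hfr : Module.Free (ZMod 2) F := Module.Free.of_divisionRing (ZMod 2) F
  have hfin : Module.Finite (ZMod 2) F := Module.Finite.of_finite
  let b := Module.finBasisOfFinrankEq (ZMod 2) F hF
  let E := b.equivFun
  let enc : (Fin 5 → ZMod 2) → ℕ := fun v =>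
    (v 0).val + 2 * (v 1).val + 4 * (v 2).val + 8 * (v 3).val + 16 * (v 4).val
  have henc_lt : ∀ v, enc v < 32 := by
    intro v
    have h0 := ZMod.val_lt (v 0)
    have h1 := ZMod.val_lt (v 1)
    have h2 := ZMod.val_lt (v 2)
    have h3 := ZMod.val_lt (v 3)
    have h4 := ZMod.val_lt (v 4)
    simp only [enc]
    omega
  have henc_add : ∀ v w, enc (v + w) = enc v ^^^ enc w := by
    have key : ∀ a0 a1 a2 a3 a4 b0 b1 b2 b3 b4 : ZMod 2,
        (a0 + b0).val + 2 * (a1 + b1).val + 4 * (a2 + b2).val + 8 * (a3 + b3).val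
          + 16 * (a4 + b4).val =
        (a0.val + 2 * a1.val + 4 * a2.val + 8 * a3.val + 16 * a4.val) ^^^
        (b0.val + 2 * b1.val + 4 * b2.val + 8 * b3.val + 16 * b4.val) := by decide +kernel
    intro v w
    exact key _ _ _ _ _ _ _ _ _ _
  have henc_inj : Function.Injective enc := by
    intro v w h
    have h0 := ZMod.val_lt (v 0)
    have h1 := ZMod.val_lt (v 1)
    have h2 := ZMod.val_lt (v 2)
    have h3 := ZMod.val_lt (v 3)
    have h4 := ZMod.val_lt (v 4)
    have k0 := ZMod.val_lt (w 0)
    have k1 := ZMod.val_lt (w 1)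
    have k2 := ZMod.val_lt (w 2)
    have k3 := ZMod.val_lt (w 3)
    have k4 := ZMod.val_lt (w 4)
    simp only [enc] at h
    funext i
    apply ZMod.val_injective 2
    fin_cases i
    · show (v 0).val = (w 0).val
      omega
    · show (v 1).val = (w 1).val
      omega
    · show (v 2).val = (w 2).val
      omega
    · show (v 3).val = (w 3).val
      omega
    · show (v 4).val = (w 4).val
      omega
  let c0 : F → Fin 32 := fun x => ⟨enc (E x), henc_lt _⟩
  have hinj : Function.Injective c0 := by
    intro x y h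
    have : enc (E x) = enc (E y) := congrArg Fin.val h
    exact E.injective (henc_inj this)
  have hcard : Nat.card F = 32 := by
    have hft := Fintype.ofFinite F
    rw [Module.natCard_eq_pow_finrank (K := ZMod 2) (V := F), hF]
    simp
  have hbij : Function.Bijective c0 := by
    have hft := Fintype.ofFinite F
    rw [Fintype.bijective_iff_injective_and_card]
    refine ⟨hinj, ?_⟩
    rw [← Nat.card_eq_fintype_card, hcard, Fintype.card_fin]
  refine ⟨Equiv.ofBijective c0 hbij, ?_⟩
  intro x y
  show enc (E (x + y)) = enc (E x) ^^^ enc (E y)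
  rw [map_add, henc_add]

section
variable {F : Type*} [AddCommGroup F] [Module (ZMod 2) F] [Finite F]

/-- the map `f` -/
def fc (c : F ≃ Fin 32) (x : F) : F := c.symm ⟨T (c x).val, T_lt _⟩

omit [AddCommGroup F] [Module (ZMod 2) F] [Finite F] in
theorem code_fc (c : F ≃ Fin 32) (x : F) : (c (fc c x)).val = T (c x).val := by
  unfold fc
  rw [Equiv.apply_symm_apply]

theorem fc_apn (c : F ≃ Fin 32) (hc : ∀ x y, (c (x + y)).val = (c x).val ^^^ (c y).val) :
    IsAPN (fc c) := by
  intro a ha b
  have hc0 : (c 0).val = 0 := by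
    have := hc 0 0
    rw [add_zero, Nat.xor_self] at this
    exact this
  have ha' : (c a).val ≠ 0 := by
    intro h
    apply ha
    apply c.injective
    apply Fin.ext
    rw [h, hc0]
  have hcard := T_apn (c a) ha' (c b)
  have himg : {x : F | fc c (x + a) + fc c x = b} ⊆
      c ⁻¹' ((Finset.univ.filter (fun x : Fin 32 =>
        T (x.val ^^^ (c a).val) ^^^ T x.val = (c b).val) : Finset (Fin 32)) : Set (Fin 32)) := by
    intro x hx
    rw [Set.mem_ofPred_eq] at hx
    rw [Set.mem_preimage, Finset.mem_coe, Finset.mem_filter]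
    refine ⟨Finset.mem_univ _, ?_⟩
    rw [← hx, hc, code_fc, code_fc, hc]
  calc {x : F | fc c (x + a) + fc c x = b}.ncard ≤ _ := Set.ncard_le_ncard himg (Set.toFinite _)
    _ = ((Finset.univ.filter (fun x : Fin 32 =>
        T (x.val ^^^ (c a).val) ^^^ T x.val = (c b).val) : Finset (Fin 32)) : Set (Fin 32)).ncard := by
        rw [← Set.ncard_image_of_injective _ c.injective, Equiv.image_preimage]
    _ = _ := Set.ncard_coe_finset _
    _ ≤ 2 := hcard

/-- every surjective linear image of the graph of `f` has all elements as differences -/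
theorem diff_all (c : F ≃ Fin 32) (hc : ∀ x y, (c (x + y)).val = (c x).val ^^^ (c y).val)
    (M : F × F →+ F) (hM : Function.Surjective M) (v : F) (hv : v ≠ 0) :
    ∃ x y : F, M (x, fc c x) - M (y, fc c y) = v := by
  by_contra hcon
  push Not at hcon
  have hc0 : (c 0).val = 0 := by
    have := hc 0 0
    rw [add_zero, Nat.xor_self] at this
    exact this
  have h2 : ∀ x : F, x + x = 0 := by
    intro x
    have : (2 : ZMod 2) • x = 0 := by
      have h : (2 : ZMod 2) = 0 := by decide
      rw [h, zero_smul]
    rwa [two_smul] at this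
  have hneg : ∀ x : F, -x = x := fun x => by
    rw [neg_eq_iff_add_eq_zero]; exact h2 x
  obtain ⟨w, hw⟩ := hM v
  -- codes of pairs
  let cc : F × F → ℕ := fun p => (c p.1).val + 32 * (c p.2).val
  have hcc_add : ∀ p q, cc (p + q) = cc p ^^^ cc q := by
    intro p q
    simp only [cc, Prod.fst_add, Prod.snd_add, hc]
    rw [xor_split (c p.1).isLt (c q.1).isLt]
  have hcc_lt : ∀ p, cc p < 1024 := by
    intro p
    have h1 := (c p.1).isLt
    have h2 := (c p.2).isLt
    simp only [cc]
    omega
  have hcc_inj : Function.Injective cc := by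
    intro p q h
    have h1 := (c p.1).isLt
    have h2 := (c p.2).isLt
    have h3 := (c q.1).isLt
    have h4 := (c q.2).isLt
    simp only [cc] at h
    apply Prod.ext
    · apply c.injective
      apply Fin.ext
      omega
    · apply c.injective
      apply Fin.ext
      omega
  have hft := Fintype.ofFinite F
  classical
  let K : Finset (F × F) := Finset.univ.filter (fun p => M p = 0)
  have hcardF : Fintype.card F = 32 := by
    rw [Fintype.card_congr c, Fintype.card_fin]
  have hKcard : K.card = 32 := by
    have h1 : Nat.card M.ker * Nat.card ((F × F) ⧸ M.ker) = Nat.card (F × F) := by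
      rw [mul_comm]
      exact (AddSubgroup.card_eq_card_quotient_mul_card_addSubgroup M.ker).symm
    have h2 : Nat.card ((F × F) ⧸ M.ker) = Nat.card F :=
      Nat.card_congr (QuotientAddGroup.quotientKerEquivOfSurjective M hM).toEquiv
    rw [h2, Nat.card_prod, Nat.card_eq_fintype_card (α := F), hcardF] at h1
    have h3 : Nat.card M.ker = 32 := by omega
    rw [← h3, ← Fintype.card_coe, ← Nat.card_eq_fintype_card]
    apply Nat.card_congr
    exact Equiv.subtypeEquivRight (fun p => by simp [K, AddMonoidHom.mem_ker])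
  apply not_bad
  refine ⟨K.image cc, cc w, hcc_lt w, ?_, ?_, ?_, ?_⟩
  · intro x hx
    rw [Finset.mem_image] at hx
    obtain ⟨p, _, rfl⟩ := hx
    exact hcc_lt p
  · intro x hx y hy
    rw [Finset.mem_image] at hx hy ⊢
    obtain ⟨p, hp, rfl⟩ := hx
    obtain ⟨q, hq, rfl⟩ := hy
    refine ⟨p + q, ?_, hcc_add p q⟩
    rw [Finset.mem_filter] at hp hq ⊢
    refine ⟨Finset.mem_univ _, ?_⟩
    rw [map_add, hp.2, hq.2, add_zero]
  · rw [Finset.card_image_of_injective _ hcc_inj, hKcard]
  · intro x hx
    rw [Finset.mem_image] at hx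
    obtain ⟨p, hp, rfl⟩ := hx
    rw [Finset.mem_filter] at hp
    by_contra hC
    have hC' : C0.testBit (cc p ^^^ cc w) = false := by simpa using hC
    rw [← hcc_add] at hC'
    have hne : cc (p + w) ≠ 0 := by
      intro h0
      have : cc (p + w) = cc 0 := by
        rw [h0]
        simp [cc, hc0]
      have h3 := hcc_inj this
      have h4 : M (p + w) = 0 := by rw [h3, map_zero]
      rw [map_add, hp.2, zero_add, hw] at h4
      exact hv h4
    obtain ⟨x, hx⟩ := T_diff ⟨cc (p + w), hcc_lt _⟩ hC' hne
    simp only at hx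
    have hmod : cc (p + w) % 32 = (c (p + w).1).val := by
      have h1 := (c (p + w).1).isLt
      simp only [cc]
      omega
    have hdiv : cc (p + w) / 32 = (c (p + w).2).val := by
      have h1 := (c (p + w).1).isLt
      simp only [cc]
      omega
    rw [hmod, hdiv] at hx
    -- x and x + (p+w).1
    set x' : F := c.symm x with hx'
    have hxc : c x' = x := by rw [hx', Equiv.apply_symm_apply]
    have e1 : fc c x' + fc c (x' + (p + w).1) = (p + w).2 := by
      apply c.injective
      apply Fin.ext
      rw [hc, code_fc, code_fc, hc, hxc]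
      exact hx
    apply hcon x' (x' + (p + w).1)
    rw [← map_sub]
    have e2 : (x', fc c x') - (x' + (p + w).1, fc c (x' + (p + w).1)) = p + w := by
      apply Prod.ext
      · show x' - (x' + (p + w).1) = (p + w).1
        rw [sub_add_eq_sub_sub, sub_self, zero_sub, hneg]
      · show fc c x' - fc c (x' + (p + w).1) = (p + w).2
        rw [sub_eq_add_neg, hneg, e1]
    rw [e2, map_add, hp.2, zero_add, hw]

/-- main step: a map whose image is a translate of a surjective linear image of the graph of `f`
does not give rise to a relative difference set -/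
theorem not_givesRDS (c : F ≃ Fin 32) (hc : ∀ x y, (c (x + y)).val = (c x).val ^^^ (c y).val)
    (M : F × F →+ F) (hM : Function.Surjective M) (t : F) (g : F → F)
    (hg : Set.range g = {r | ∃ x, r = M (x, fc c x) + t}) : ¬ GivesRDS g := by
  rintro ⟨N, lam, ⟨h1, h2⟩, h3, h4⟩
  have hft := Fintype.ofFinite F
  have hcardF : Fintype.card F = 32 := by
    rw [Fintype.card_congr c, Fintype.card_fin]
  -- every nonzero element is a difference of two elements of the range
  have hdiff : ∀ v : F, v ≠ 0 → ∃ r ∈ Set.range g, ∃ r' ∈ Set.range g, r - r' = v := by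
    intro v hv
    obtain ⟨x, y, hxy⟩ := diff_all c hc M hM v hv
    refine ⟨M (x, fc c x) + t, by rw [hg]; exact ⟨x, rfl⟩, M (y, fc c y) + t,
      by rw [hg]; exact ⟨y, rfl⟩, ?_⟩
    rw [add_sub_add_right_eq_sub, hxy]
  have hN : ∀ v : F, v ≠ 0 → v ∉ N := by
    intro v hv hvN
    obtain ⟨r, hr, r', hr', hrr⟩ := hdiff v hv
    exact h2 v hvN hv r hr r' hr' hrr
  classical
  -- counting
  set R : Finset F := Finset.univ.filter (fun r => r ∈ Set.range g) with hRdef
  have hRcard : (Set.range g).ncard = R.card := by
    rw [← Set.ncard_coe_finset]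
    congr 1
    ext r
    simp [R]
  have hcount : R.offDiag.card = ∑ v ∈ (Finset.univ.erase (0 : F)),
      (R.offDiag.filter (fun p => p.1 - p.2 = v)).card := by
    apply Finset.card_eq_sum_card_fiberwise
    intro p hp
    rw [Finset.mem_coe, Finset.mem_offDiag] at hp
    rw [Finset.mem_coe, Finset.mem_erase]
    exact ⟨sub_ne_zero.mpr hp.2.2, Finset.mem_univ _⟩
  have hfib : ∀ v ∈ (Finset.univ.erase (0 : F)),
      (R.offDiag.filter (fun p => p.1 - p.2 = v)).card = lam := by
    intro v hv
    rw [Finset.mem_erase] at hv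
    rw [← h1 v (hN v hv.1), ← Set.ncard_coe_finset]
    congr 1
    ext p
    simp [R, Finset.mem_offDiag, and_assoc]
  rw [Finset.sum_congr rfl hfib, Finset.sum_const, Finset.card_erase_of_mem (Finset.mem_univ _),
    Finset.card_univ, hcardF, Finset.offDiag_card, smul_eq_mul] at hcount
  rw [hRcard] at h3 h4
  rw [Nat.card_eq_fintype_card, hcardF] at h4
  have hk : R.card ≤ 30 := by omega
  generalize R.card = k at hcount h3 hk
  have hdvd : 31 ∣ k * k - k := ⟨lam, by rw [hcount]⟩
  have hmul : k * k - k = k * (k - 1) := by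
    rw [Nat.mul_sub, mul_one]
  rw [hmul] at hdvd
  have hp : Nat.Prime 31 := by norm_num
  rcases (hp.dvd_mul).mp hdvd with h | h
  · have := Nat.le_of_dvd (by omega) h
    omega
  · have := Nat.le_of_dvd (by omega) h
    omega

end

/-- There is an APN map `f` on the field with 32 elements such that no map EA-equivalent to `f` and
no map CCZ-equivalent to `f` gives rise to a relative difference set. -/
theorem result : ∃ f : GaloisField 2 5 → GaloisField 2 5, IsAPN f ∧
    ∀ g : GaloisField 2 5 → GaloisField 2 5, (EAEquiv f g ∨ CCZEquiv f g) → ¬ GivesRDS g := by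
  have hfr : Module.finrank (ZMod 2) (GaloisField 2 5) = 5 := GaloisField.finrank 2 (by norm_num)
  have hfin : Finite (GaloisField 2 5) := by
    have : Module.Finite (ZMod 2) (GaloisField 2 5) :=
      Module.finite_of_finrank_pos (by rw [hfr]; norm_num)
    exact Module.finite_of_finite (ZMod 2)
  obtain ⟨c, hc⟩ := exists_code (GaloisField 2 5) hfr
  refine ⟨fc c, fc_apn c hc, ?_⟩
  intro g hg
  rcases hg with ⟨A, B, C, hABC⟩ | ⟨e, he⟩
  · -- EA
    let M : (GaloisField 2 5 × GaloisField 2 5) →ₗ[ZMod 2] GaloisField 2 5 :=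
      (C.linear ∘ₗ (B.symm.linear : GaloisField 2 5 →ₗ[ZMod 2] GaloisField 2 5)) ∘ₗ
        LinearMap.fst _ _ _ + (A.linear : GaloisField 2 5 →ₗ[ZMod 2] GaloisField 2 5) ∘ₗ
        LinearMap.snd _ _ _
    refine not_givesRDS c hc M.toAddMonoidHom ?_ (C (B.symm 0) + A 0) g ?_
    · intro v
      refine ⟨(0, A.linear.symm v), ?_⟩
      show C.linear (B.symm.linear 0) + A.linear (A.linear.symm v) = v
      simp
    · have hCx : ∀ u, C (B.symm u) = C.linear (B.symm.linear u) + C (B.symm 0) := by
        intro u
        have h1 : B.symm u = B.symm.linear u +ᵥ B.symm 0 := by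
          have := B.symm.map_vadd 0 u
          simpa using this
        rw [h1, C.map_vadd]
        rfl
      have hAx : ∀ u, A u = A.linear u + A 0 := by
        intro u
        have := A.map_vadd 0 u
        simpa using this
      ext r
      constructor
      · rintro ⟨x, rfl⟩
        refine ⟨B x, ?_⟩
        rw [hABC]
        show A (fc c (B x)) + C x =
          (C.linear (B.symm.linear (B x)) + A.linear (fc c (B x))) + (C (B.symm 0) + A 0)
        have h5 := hCx (B x)
        rw [AffineEquiv.symm_apply_apply] at h5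
        rw [h5, hAx (fc c (B x))]
        abel
      · rintro ⟨u, rfl⟩
        refine ⟨B.symm u, ?_⟩
        rw [hABC]
        show A (fc c (B (B.symm u))) + C (B.symm u) =
          (C.linear (B.symm.linear u) + A.linear (fc c u)) + (C (B.symm 0) + A 0)
        rw [AffineEquiv.apply_symm_apply, hCx u, hAx (fc c u)]
        abel
  · -- CCZ
    let M : (GaloisField 2 5 × GaloisField 2 5) →ₗ[ZMod 2] GaloisField 2 5 :=
      LinearMap.snd _ _ _ ∘ₗ (e.linear : (GaloisField 2 5 × GaloisField 2 5) →ₗ[ZMod 2]
        (GaloisField 2 5 × GaloisField 2 5))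
    refine not_givesRDS c hc M.toAddMonoidHom ?_ (e 0).2 g ?_
    · intro v
      refine ⟨e.linear.symm (0, v), ?_⟩
      show (e.linear (e.linear.symm (0, v))).2 = v
      simp
    · have hex : ∀ u, e u = e.linear u + e 0 := by
        intro u
        have := e.map_vadd 0 u
        simpa using this
      ext r
      constructor
      · rintro ⟨x, rfl⟩
        have hmem : (x, g x) ∈ e '' {p | p.2 = fc c p.1} := by
          rw [he]
          rfl
        obtain ⟨p, hp, hpe⟩ := hmem
        rw [Set.mem_ofPred_eq] at hp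
        refine ⟨p.1, ?_⟩
        show g x = (e.linear (p.1, fc c p.1)).2 + (e 0).2
        have h6 : (p.1, fc c p.1) = p := by rw [← hp]
        rw [h6, ← Prod.snd_add, ← hex, hpe]
      · rintro ⟨u, rfl⟩
        have hmem : e (u, fc c u) ∈ e '' {p | p.2 = fc c p.1} := ⟨(u, fc c u), rfl, rfl⟩
        rw [he, Set.mem_ofPred_eq] at hmem
        refine ⟨(e (u, fc c u)).1, ?_⟩
        rw [← hmem]
        show (e (u, fc c u)).2 = (e.linear (u, fc c u)).2 + (e 0).2
        rw [← Prod.snd_add, ← hex]

end Pool.Agent.Results.MP_abc6c1_co.NotEveryAPN
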